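import Mathlib
import Pool.Agent.R120.PatDef
import Pool.Agent.R120.AntichainDef
import Pool.Agent.R120.SumDef
import Pool.Agent.R120.CombLow
import Pool.Agent.R120.CombUp

set_option autoImplicit false

namespace Pool.Agent.Results.MP_414122_co.BelowOnePlusSqrtTwo

open Pool.Agent.R120 Pool.Agent.R120.Antichain Pool.Agent.R120.SumClass
open scoped ENNReal

/-- There is a sum closed permutation class `C` whose indecomposable members have upper growth
rate greater than `1`, and whose own (upper) growth rate is less than `1 + √2`. -/
theorem result : ∃ C : Set AllPerms, IsClass C ∧ SumClosed C ∧ 1 < upperGrowth (ind C) ∧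
    upperGrowth C < ENNReal.ofReal (1 + Real.sqrt 2) :=
  ⟨Comb.C, Comb.isClass_C, Comb.sumClosed_C, Comb.ind_growth, Comb.growth_C⟩

end Pool.Agent.Results.MP_414122_co.BelowOnePlusSqrtTwo
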